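import Pool.Agent.H72.FD.Main

/-!
# MP_104731_an

A bounded continuous non-constant mapping of finite distortion `ℝ³ → ℝ³` with almost everywhere
positive Jacobian whose distortion satisfies the growth condition for every power `φ(t) = t ^ p`
(and for `φ(t) = exp (l t ^ s)`, any fixed `s < 1`, every `l`).
-/

namespace Pool.Agent.Results.MP_104731_an.BoundedPower

open MeasureTheory Filter Topology
open scoped ENNReal

/-- Euclidean `n`-space. -/
abbrev E (n : ℕ) : Type := EuclideanSpace ℝ (Fin n)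

/-- `G` is the weak derivative of `f`: for each smooth compactly supported test function, each
direction and each component the integration by parts formula holds. -/
def IsWeakDeriv {n : ℕ} (f : E n → E n) (G : E n → E n →L[ℝ] E n) : Prop :=
  ∀ φ : E n → ℝ, ContDiff ℝ (⊤ : ℕ∞) φ → HasCompactSupport φ → ∀ (v : E n) (i : Fin n),
    ∫ x, f x i * fderiv ℝ φ x v = - ∫ x, G x v i * φ x

/-- `f` is a mapping of finite distortion with weak derivative `G`: `f` and `G` are locally
integrable (so `f` is of class `W^{1,1}_loc`), the Jacobian is locally integrable, and there is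
`K ≥ 1`, finite almost everywhere, with `|Df|^n ≤ K J_f` almost everywhere. -/
def FiniteDistortion {n : ℕ} (f : E n → E n) (G : E n → E n →L[ℝ] E n) : Prop :=
  LocallyIntegrable f ∧ LocallyIntegrable G ∧ IsWeakDeriv f G ∧
    LocallyIntegrable (fun x => (G x).det) ∧
    ∃ K : E n → ℝ≥0∞, (∀ x, 1 ≤ K x) ∧ (∀ᵐ x, K x ≠ ⊤) ∧
      ∀ᵐ x, ‖G x‖ ^ n ≤ (K x).toReal * (G x).det

open Classical in
/-- The distortion function. -/
noncomputable def distortion {n : ℕ} (G : E n → E n →L[ℝ] E n) (x : E n) : ℝ :=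
  if 0 < (G x).det then ‖G x‖ ^ n / (G x).det else 1

/-- The growth condition `limsup_{R → ∞} R^{-n} ∫_{B(0,R)} φ(K_f) < ∞`. -/
def Growth {n : ℕ} (G : E n → E n →L[ℝ] E n) (φ : ℝ → ℝ) : Prop :=
  limsup (fun R : ℝ => (∫⁻ x in Metric.ball 0 R, ENNReal.ofReal (φ (distortion G x))) /
    ENNReal.ofReal (R ^ n)) atTop < ⊤

lemma rpow_le_add {T g : ℝ} (hT : 0 ≤ T) (hg : 0 < g) (hg1 : g < 1) :
    ∃ C : ℝ, ∀ k : ℕ, T * ((k : ℝ) + 1) ^ g ≤ C + k := by
  set X : ℝ := T ^ (1 / (1 - g)) with hX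
  have hX0 : 0 ≤ X := Real.rpow_nonneg hT _
  have hXT : X ^ (1 - g) = T := by
    rw [hX, ← Real.rpow_mul hT, one_div_mul_cancel (by linarith), Real.rpow_one]
  refine ⟨1 + T * X ^ g, fun k => ?_⟩
  have hk : (0 : ℝ) ≤ k := Nat.cast_nonneg k
  have hk1 : (0 : ℝ) < (k : ℝ) + 1 := by linarith
  rcases le_total X ((k : ℝ) + 1) with h | h
  · have h1 : T ≤ ((k : ℝ) + 1) ^ (1 - g) := by
      rw [← hXT]
      exact Real.rpow_le_rpow hX0 h (by linarith)
    have h2 := mul_le_mul_of_nonneg_right h1 (Real.rpow_nonneg hk1.le g)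
    rw [← Real.rpow_add hk1, show 1 - g + g = 1 by ring, Real.rpow_one] at h2
    have h3 : 0 ≤ T * X ^ g := mul_nonneg hT (Real.rpow_nonneg hX0 _)
    linarith
  · have h1 := mul_le_mul_of_nonneg_left (Real.rpow_le_rpow hk1.le h hg.le) hT
    linarith

/-- Summability of the sub-exponential weights. -/
lemma sum_weights {l T g : ℝ} (hl : 0 ≤ l) (hT : 0 ≤ T) (hg : 0 < g) (hg1 : g < 1) (D : ℝ) (hD : 0 ≤ D) :
    ∑' k : ℕ, ENNReal.ofReal (D * Real.exp (l * (T * ((k : ℝ) + 1) ^ g))) *
      ENNReal.ofReal ((1 / 16) ^ k) ≠ ⊤ := by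
  obtain ⟨C, hC⟩ := rpow_le_add (mul_nonneg hl hT) hg hg1
  have hsum : Summable (fun k : ℕ => D * Real.exp (l * (T * ((k : ℝ) + 1) ^ g)) * (1 / 16) ^ k) := by
    have hr : Real.exp 1 / 16 < 1 := by
      have := Real.exp_one_lt_d9
      linarith
    have hgeo := ((summable_geometric_of_lt_one (by positivity) hr).mul_left (D * Real.exp C))
    refine Summable.of_nonneg_of_le (fun k => by positivity) (fun k => ?_) hgeo
    have h1 : Real.exp (l * (T * ((k : ℝ) + 1) ^ g)) ≤ Real.exp C * Real.exp 1 ^ k := by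
      rw [← Real.exp_nat_mul, mul_one, ← Real.exp_add]
      apply Real.exp_le_exp.2
      rw [← mul_assoc]
      exact hC k
    calc D * Real.exp (l * (T * ((k : ℝ) + 1) ^ g)) * (1 / 16) ^ k
        ≤ D * (Real.exp C * Real.exp 1 ^ k) * (1 / 16) ^ k := by
          apply mul_le_mul_of_nonneg_right _ (by positivity)
          exact mul_le_mul_of_nonneg_left h1 hD
      _ = D * Real.exp C * (Real.exp 1 / 16) ^ k := by
          rw [div_pow, div_pow, one_pow]
          ring
  have := hsum.tsum_ofReal_ne_top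
  refine ne_of_eq_of_ne ?_ this
  congr 1
  ext k
  rw [← ENNReal.ofReal_mul (by positivity)]

open Pool.Agent.H72.FD in
lemma base_vals : base (pt 2 0 0) ≠ base (pt 4 0 0) := by
  intro h
  have h0 := congrArg (fun z : V => z 0) h
  have q2 : qg (pt 2 0 0) = 2 := by
    unfold qg rad
    simp
  have q4 : qg (pt 4 0 0) = 4 := by
    unfold qg rad
    simp
  simp only [base, q2, q4] at h0
  simp at h0
  norm_num at h0

open Pool.Agent.H72.FD in
theorem result : ∀ s : ℝ, 0 < s → s < 1 → ∃ (f : E 3 → E 3) (G : E 3 → E 3 →L[ℝ] E 3),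
    Continuous f ∧ Bornology.IsBounded (Set.range f) ∧ (∃ x y, f x ≠ f y) ∧
    FiniteDistortion f G ∧ (∀ᵐ x, 0 < (G x).det) ∧
    (∀ q : ℝ, 0 < q → q < 3 → LocallyIntegrable (fun x => ‖G x‖ ^ q)) ∧
    (∀ p : ℝ, 0 < p → Growth G (fun t => t ^ p)) ∧
    (∀ l : ℝ, 0 < l → Growth G (fun t => Real.exp (l * t ^ s))) ∧
    (Set.range f)ᶜ.Infinite := by
  intro s hs0 hs1
  -- the exponent of the weights
  set b : ℝ := (1 + 1 / s) / 2 with hb
  have hsinv : 1 < 1 / s := by rw [lt_div_iff₀ hs0]; linarith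
  have hb1 : 1 < b := by rw [hb]; linarith
  have hbs : b * s = (s + 1) / 2 := by
    rw [hb]; field_simp
  have hbs0 : 0 < b * s := by rw [hbs]; linarith
  have hbs1 : b * s < 1 := by rw [hbs]; linarith
  set c : ℕ → ℝ := fun m => 1 / (16 * ((m : ℝ) + 1) ^ b) with hcdef
  have hm1 : ∀ m : ℕ, (1 : ℝ) ≤ ((m : ℝ) + 1) ^ b := fun m => by
    apply Real.one_le_rpow _ (by linarith)
    have : (0 : ℝ) ≤ m := Nat.cast_nonneg m
    linarith
  have hc : ∀ m, 0 < c m := fun m => by
    have := hm1 m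
    simp only [hcdef]
    positivity
  have hc' : ∀ m, c m ≤ 1 / 16 := fun m => by
    have := hm1 m
    simp only [hcdef]
    apply one_div_le_one_div_of_le (by norm_num)
    linarith
  have hsum : Summable c := by
    have h1 : Summable (fun m : ℕ => 1 / (m : ℝ) ^ b) := Real.summable_one_div_nat_rpow.2 hb1
    have h2 := (summable_nat_add_iff 1).2 h1
    refine (h2.mul_left (1 / 16)).congr fun m => ?_
    simp only [hcdef]
    push_cast
    rw [one_div_mul_one_div]
  obtain ⟨f, G, B, hB, hf, hfB, hout, hGL, hJL, hweak, hdet, hnorm, hratio⟩ := main_raw hc hc' hsum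
  have hB0 : 0 < B := by linarith
  -- distortion bound
  have hdist : ∀ᵐ x : E 3, 0 ≤ distortion G x ∧ (distortion G x ≤ B ∨
      ∃ k, x ∈ Rm k ∧ distortion G x ≤ 16 * B * ((k : ℝ) + 1) ^ b) := by
    filter_upwards [hdet, hratio] with x hx hr
    unfold distortion
    rw [if_pos hx]
    refine ⟨by positivity, ?_⟩
    rcases hr with hr | ⟨k, hk, hr⟩
    · exact Or.inl hr
    · refine Or.inr ⟨k, hk, hr.trans (le_of_eq ?_)⟩
      simp only [hcdef]
      rw [div_div_eq_mul_div, div_one]
      ring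
  have hgrow : ∀ l D : ℝ, 0 < l → 0 ≤ D → ∀ φ : ℝ → ℝ,
      (∀ t, 0 ≤ t → φ t ≤ D * Real.exp (l * t ^ s)) → Growth G φ := by
    intro l D hl hD φ hφ
    refine growth (b := ENNReal.ofReal (D * Real.exp (l * B ^ s)))
      (w := fun k => ENNReal.ofReal (D * Real.exp (l * ((16 * B) ^ s * ((k : ℝ) + 1) ^ (b * s)))))
      ENNReal.ofReal_ne_top (sum_weights hl.le (by positivity) hbs0 hbs1 D hD) ?_
    filter_upwards [hdist] with x hx
    have hmono : ∀ t u : ℝ, 0 ≤ t → t ≤ u → φ t ≤ D * Real.exp (l * u ^ s) := fun t u ht htu => by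
      refine (hφ t ht).trans (mul_le_mul_of_nonneg_left (Real.exp_le_exp.2 ?_) hD)
      exact mul_le_mul_of_nonneg_left (Real.rpow_le_rpow ht htu hs0.le) hl.le
    rcases hx with ⟨h0, h1 | ⟨k, hk, h1⟩⟩
    · left
      exact ENNReal.ofReal_le_ofReal (hmono _ _ h0 h1)
    · right
      refine ⟨k, hk, ENNReal.ofReal_le_ofReal ?_⟩
      have h2 := hmono _ _ h0 h1
      have hk0 : (0 : ℝ) ≤ (k : ℝ) + 1 := by positivity
      rwa [Real.mul_rpow (by positivity) (Real.rpow_nonneg hk0 _), ← Real.rpow_mul hk0] at h2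
  refine ⟨f, G, hf, ?_, ⟨pt 2 0 0, pt 4 0 0, ?_⟩, ⟨hf.locallyIntegrable, hGL, hweak, hJL, ?_⟩, hdet,
    ?_, ?_, ?_, ?_⟩
  · rw [isBounded_iff_forall_norm_le]
    exact ⟨B, by rintro _ ⟨x, rfl⟩; exact hfB x⟩
  · rw [hout _ (fun h => by have := h.1; simp at this),
      hout _ (fun h => by have := h.1; simp at this)]
    exact base_vals
  · refine ⟨fun x => max 1 (ENNReal.ofReal (distortion G x)), fun x => le_max_left _ _,
      Filter.Eventually.of_forall fun x => by simp, ?_⟩
    filter_upwards [hdet] with x hx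
    have h1 : distortion G x ≤ (max 1 (ENNReal.ofReal (distortion G x))).toReal := by
      rw [← ENNReal.ofReal_le_iff_le_toReal (by simp)]
      exact le_max_right _ _
    refine le_trans (le_of_eq ?_) (mul_le_mul_of_nonneg_right h1 hx.le)
    unfold distortion
    rw [if_pos hx, div_mul_cancel₀ _ hx.ne']
  · intro q hq0 hq3
    have hmeas : AEStronglyMeasurable (fun x => ‖G x‖ ^ q) volume :=
      ((hGL.aestronglyMeasurable.norm.aemeasurable).pow_const q).aestronglyMeasurable
    refine locInt_of_bound hmeas (b := ENNReal.ofReal ((B ^ 2) ^ (q / 3)))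
      (w := fun k => ENNReal.ofReal ((B ^ 2 * 16 ^ k) ^ (q / 3))) ENNReal.ofReal_ne_top ?_ ?_
    · have hr : (16 : ℝ) ^ (q / 3) / 16 < 1 := by
        rw [div_lt_one (by norm_num)]
        calc (16 : ℝ) ^ (q / 3) < 16 ^ (1 : ℝ) :=
              Real.rpow_lt_rpow_of_exponent_lt (by norm_num) (by linarith)
          _ = 16 := Real.rpow_one 16
      have hgeo := ((summable_geometric_of_lt_one (by positivity) hr).mul_left ((B ^ 2) ^ (q / 3)))
      refine ne_of_eq_of_ne ?_ hgeo.tsum_ofReal_ne_top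
      congr 1
      ext k
      rw [← ENNReal.ofReal_mul (by positivity)]
      congr 1
      rw [Real.mul_rpow (by positivity) (by positivity), div_pow, div_pow, one_pow,
        ← Real.rpow_natCast ((16 : ℝ) ^ (q / 3)) k, ← Real.rpow_mul (by norm_num),
        ← Real.rpow_natCast (16 : ℝ) k, ← Real.rpow_mul (by norm_num), mul_comm (k : ℝ) (q / 3)]
      ring
    · filter_upwards [hnorm] with x hx
      have key : ∀ y : ℝ, 0 ≤ y → ‖G x‖ ^ 3 ≤ y → ‖G x‖ ^ q ≤ y ^ (q / 3) := fun y hy h => by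
        have h1 := Real.rpow_le_rpow (by positivity) h (by positivity : 0 ≤ q / 3)
        rw [← Real.rpow_natCast, ← Real.rpow_mul (norm_nonneg _)] at h1
        convert h1 using 2
        push_cast
        ring
      rw [← ofReal_norm, Real.norm_of_nonneg (by positivity)]
      rcases hx with h | ⟨k, hk, h⟩
      · exact Or.inl (ENNReal.ofReal_le_ofReal (key _ (by positivity) h))
      · exact Or.inr ⟨k, hk, ENNReal.ofReal_le_ofReal (key _ (by positivity) h)⟩
  · intro p hp
    obtain ⟨n, hn⟩ := exists_nat_ge (p / s)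
    refine hgrow 1 (n.factorial) one_pos (by positivity) _ fun t ht => ?_
    rw [one_mul]
    have hf1 : (1 : ℝ) ≤ n.factorial := by exact_mod_cast Nat.one_le_iff_ne_zero.2 (Nat.factorial_ne_zero n)
    rcases le_total t 1 with h | h
    · have h1 : t ^ p ≤ 1 := Real.rpow_le_one ht h hp.le
      have h2 : 1 ≤ Real.exp (t ^ s) := Real.one_le_exp (Real.rpow_nonneg ht s)
      nlinarith
    · have h1 : t ^ p ≤ (t ^ s) ^ n := by
        rw [← Real.rpow_natCast, ← Real.rpow_mul ht]
        apply Real.rpow_le_rpow_of_exponent_le h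
        rw [div_le_iff₀ hs0] at hn
        linarith
      have h2 := Real.pow_div_factorial_le_exp (t ^ s) (Real.rpow_nonneg ht s) n
      rw [div_le_iff₀ (by positivity)] at h2
      linarith
  · intro l hl
    exact hgrow l 1 hl zero_le_one _ fun t _ => by rw [one_mul]
  · intro hfin
    have h1 : Bornology.IsBounded (Set.range f) := by
      rw [isBounded_iff_forall_norm_le]
      exact ⟨B, by rintro _ ⟨x, rfl⟩; exact hfB x⟩
    have h2 := h1.union hfin.isBounded
    rw [Set.union_compl_self] at h2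
    exact NormedSpace.unbounded_univ ℝ (E 3) h2

end Pool.Agent.Results.MP_104731_an.BoundedPower
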